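import Pool.Agent.Lib.MP_3004b3_ag.Stmt
import Pool.Agent.Lib.MP_3004b3_ag.J3
import Pool.Agent.Lib.MP_3004b3_ag.N4
import Pool.Agent.Lib.MP_3004b3_ag.N5

/-!
# A surface of general type with `p_g = 4` whose `H²_tr` splits into four K3 pieces

The surface is the Horikawa surface `x_0² + x_1² + x_2² + x_3² = 0`,
`z² = 9 x_0⁶ + 16 x_1⁶ + 25 x_2⁶ + 81 x_3⁶` in `ℙ(1, 1, 1, 1, 3)`, and the K3 surfaces are its
quotients by the four sign changes `x_j ↦ - x_j`.
-/

set_option autoImplicit false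

namespace Pool.Agent.Results.MP_3004b3_ag.FourK3Pieces

open Pool.Agent.K3Pieces

/-- There are a smooth complex projective surface `S` of general type with `p_g(S) = 4`,
`q(S) = 0` and four K3 surfaces `X j` such that `H²_tr(S)` is isomorphic to the direct sum of the
`H²_tr(X j)`, as a rational Hodge structure. -/
theorem result : ∃ S : Surf, S.GeneralType ∧ S.HasPg 4 ∧
    (∀ α, S.IsForm1 Set.univ α → ∀ f q, S.PlotAt f q → α f q = 0) ∧
    ∃ X : Fin 4 → Surf, (∀ j, (X j).IsK3) ∧ TrSplit S X :=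
  ⟨SS, SS_generalType, SS_pg, SS_form1, XX, XX_isK3, trSplit_of_trSplits
    (trSplits_of_splitData SD)⟩

end Pool.Agent.Results.MP_3004b3_ag.FourK3Pieces
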